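import Pool.Agent.Helper48.AX.Defs

set_option autoImplicit false

open scoped MeasureTheory ENNReal
open Complex

noncomputable section

namespace AX

/-- positive part of the excess -/
def kirs_l {n : ℕ} (r : ℝ) (q : Fin n → ℂ) (y : ℂ) (i : Fin n) : ℝ :=
  max 0 (‖y - q i‖ ^ 2 - r ^ 2)

def kirs_F {n : ℕ} (r : ℝ) (q : Fin n → ℂ) (y : ℂ) : ℝ := ∑ i, kirs_l r q y i ^ 2

theorem kirs_l_nonneg {n : ℕ} (r : ℝ) (q : Fin n → ℂ) (y : ℂ) (i : Fin n) :
    0 ≤ kirs_l r q y i := le_max_left _ _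

theorem kirs_F_nonneg {n : ℕ} (r : ℝ) (q : Fin n → ℂ) (y : ℂ) :
    0 ≤ kirs_F r q y := Finset.sum_nonneg fun _ _ => sq_nonneg _

theorem kirs_F_cont {n : ℕ} (r : ℝ) (q : Fin n → ℂ) : Continuous (kirs_F r q) := by
  unfold kirs_F kirs_l
  fun_prop

theorem kirs_min {n : ℕ} (r : ℝ) (q : Fin (n + 1) → ℂ) :
    ∃ y, ∀ z, kirs_F r q y ≤ kirs_F r q z := by
  set F0 := kirs_F r q (q 0) with hF0
  have hF0n : 0 ≤ F0 := kirs_F_nonneg _ _ _
  set R := Real.sqrt (r ^ 2 + 1 + F0) with hR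
  have hR2 : R ^ 2 = r ^ 2 + 1 + F0 := Real.sq_sqrt (by positivity)
  have hR0 : 0 ≤ R := Real.sqrt_nonneg _
  obtain ⟨y, hy, hmin⟩ := (isCompact_closedBall (q 0) R).exists_isMinOn
    ⟨q 0, Metric.mem_closedBall_self hR0⟩ (kirs_F_cont r q).continuousOn
  refine ⟨y, fun z => ?_⟩
  by_cases hz : z ∈ Metric.closedBall (q 0) R
  · exact hmin hz
  · have h1 : kirs_F r q y ≤ F0 := hmin (Metric.mem_closedBall_self hR0)
    refine h1.trans ?_
    rw [Metric.mem_closedBall, not_le, dist_eq_norm] at hz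
    have h2 : R ^ 2 ≤ ‖z - q 0‖ ^ 2 := pow_le_pow_left₀ hR0 hz.le 2
    have h3 : 1 + F0 ≤ kirs_l r q z 0 := by
      refine le_trans ?_ (le_max_right _ _)
      linarith
    have h4 : kirs_l r q z 0 ^ 2 ≤ kirs_F r q z :=
      Finset.single_le_sum (f := fun i => kirs_l r q z i ^ 2) (fun _ _ => sq_nonneg _)
        (Finset.mem_univ 0)
    nlinarith

theorem kirs_phi (s h : ℝ) : max 0 (s + h) ^ 2 ≤ max 0 s ^ 2 + 2 * max 0 s * h + h ^ 2 := by
  rcases le_total 0 (s + h) with h1 | h1 <;> rcases le_total 0 s with h2 | h2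
  · rw [max_eq_right h1, max_eq_right h2]; nlinarith
  · rw [max_eq_right h1, max_eq_left h2]; nlinarith
  · rw [max_eq_left h1, max_eq_right h2]; nlinarith [sq_nonneg (s + h)]
  · rw [max_eq_left h1, max_eq_left h2]; nlinarith [sq_nonneg h]

theorem kirs_crit {n : ℕ} (r : ℝ) (q : Fin n → ℂ) (y : ℂ)
    (hy : ∀ z, kirs_F r q y ≤ kirs_F r q z) : ∑ i, kirs_l r q y i • (q i - y) = 0 := by
  set G : ℂ := ∑ i, kirs_l r q y i • (q i - y) with hG
  -- moving y in the direction G
  set a : Fin n → ℝ := fun i => -inner ℝ (q i - y) G with ha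
  have hsum : ∑ i, kirs_l r q y i * a i = -‖G‖ ^ 2 := by
    have h1 : ‖G‖ ^ 2 = ∑ i, kirs_l r q y i * inner ℝ (q i - y) G := by
      rw [← real_inner_self_eq_norm_sq]
      conv_lhs => rw [hG, sum_inner]
      apply Finset.sum_congr rfl
      intro i _
      rw [real_inner_smul_left]
    rw [h1, ← Finset.sum_neg_distrib]
    apply Finset.sum_congr rfl
    intro i _
    rw [ha]; ring
  have hexp : ∀ (t : ℝ) (i : Fin n), ‖(y + t • G) - q i‖ ^ 2 =
      ‖y - q i‖ ^ 2 + (2 * t * a i + t ^ 2 * ‖G‖ ^ 2) := by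
    intro t i
    have h1 : (y + t • G) - q i = t • G - (q i - y) := by ring
    rw [h1, norm_sub_sq_real, norm_smul, real_inner_smul_left, mul_pow, Real.norm_eq_abs, sq_abs,
      ha, real_inner_comm, norm_sub_rev y (q i)]
    ring
  have hmain : ∀ t : ℝ, 0 < t → t ≤ 1 →
      4 * ‖G‖ ^ 2 ≤ t * (2 * (∑ i, kirs_l r q y i) * ‖G‖ ^ 2 +
        ∑ i, (2 * |a i| + ‖G‖ ^ 2) ^ 2) := by
    intro t ht ht1
    have h1 := hy (y + t • G)
    have h2 : kirs_F r q (y + t • G) ≤ ∑ i, (kirs_l r q y i ^ 2 +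
        2 * kirs_l r q y i * (2 * t * a i + t ^ 2 * ‖G‖ ^ 2) +
        t ^ 2 * (2 * |a i| + ‖G‖ ^ 2) ^ 2) := by
      unfold kirs_F
      apply Finset.sum_le_sum
      intro i _
      have h3 := kirs_phi (‖y - q i‖ ^ 2 - r ^ 2) (2 * t * a i + t ^ 2 * ‖G‖ ^ 2)
      have h4 : kirs_l r q (y + t • G) i =
          max 0 (‖y - q i‖ ^ 2 - r ^ 2 + (2 * t * a i + t ^ 2 * ‖G‖ ^ 2)) := by
        unfold kirs_l
        rw [hexp]
        congr 1
        ring
      rw [h4]
      refine h3.trans ?_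
      have h5 : (2 * t * a i + t ^ 2 * ‖G‖ ^ 2) ^ 2 ≤ t ^ 2 * (2 * |a i| + ‖G‖ ^ 2) ^ 2 := by
        have hmp : t ^ 2 * (2 * |a i| + ‖G‖ ^ 2) ^ 2 = (t * (2 * |a i| + ‖G‖ ^ 2)) ^ 2 := by ring
        rw [hmp]
        apply sq_le_sq'
        · have h6 := neg_abs_le (a i)
          have h7 : 0 ≤ ‖G‖ ^ 2 := by positivity
          nlinarith [mul_nonneg ht.le h7, mul_nonneg (sq_nonneg t) h7]
        · have h6 := le_abs_self (a i)
          have h7 : 0 ≤ ‖G‖ ^ 2 := by positivity
          nlinarith [mul_nonneg ht.le h7, mul_nonneg (mul_nonneg ht.le (sub_nonneg.2 ht1)) h7]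
      unfold kirs_l
      linarith
    rw [Finset.sum_add_distrib, Finset.sum_add_distrib] at h2
    have h8 : ∑ i, 2 * kirs_l r q y i * (2 * t * a i + t ^ 2 * ‖G‖ ^ 2) =
        4 * t * (∑ i, kirs_l r q y i * a i) + 2 * t ^ 2 * ‖G‖ ^ 2 * ∑ i, kirs_l r q y i := by
      rw [Finset.mul_sum, Finset.mul_sum, ← Finset.sum_add_distrib]
      apply Finset.sum_congr rfl
      intro i _
      ring
    rw [h8, hsum, ← Finset.mul_sum] at h2
    have h9 : kirs_F r q y = ∑ i, kirs_l r q y i ^ 2 := rfl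
    have h10 : 0 ≤ t * (t * (2 * (∑ i, kirs_l r q y i) * ‖G‖ ^ 2 +
        ∑ i, (2 * |a i| + ‖G‖ ^ 2) ^ 2) - 4 * ‖G‖ ^ 2) := by
      rw [h9] at h1
      nlinarith
    have h11 := (mul_nonneg_iff_of_pos_left ht).1 h10
    linarith
  by_contra hne
  have hpos : 0 < ‖G‖ ^ 2 := by
    have : 0 < ‖G‖ := norm_pos_iff.2 hne
    positivity
  set B := 2 * (∑ i, kirs_l r q y i) * ‖G‖ ^ 2 + ∑ i, (2 * |a i| + ‖G‖ ^ 2) ^ 2 with hB
  have hB0 : 0 ≤ B := by
    apply add_nonneg
    · have : 0 ≤ ∑ i, kirs_l r q y i := Finset.sum_nonneg fun i _ => kirs_l_nonneg r q y i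
      positivity
    · exact Finset.sum_nonneg fun _ _ => sq_nonneg _
  have h1 := hmain (min 1 (‖G‖ ^ 2 / (B + 1))) (lt_min one_pos (by positivity)) (min_le_left _ _)
  have h2 : min 1 (‖G‖ ^ 2 / (B + 1)) * B ≤ ‖G‖ ^ 2 / (B + 1) * B :=
    mul_le_mul_of_nonneg_right (min_le_right _ _) hB0
  have h3 : ‖G‖ ^ 2 / (B + 1) * B ≤ ‖G‖ ^ 2 := by
    rw [div_mul_eq_mul_div, div_le_iff₀ (by positivity)]
    nlinarith
  linarith

theorem st_KIRS : ST_KIRS := by
  intro n r p q hpq hne
  cases n with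
  | zero => exact ⟨0, by simp [K]⟩
  | succ n =>
    obtain ⟨x, hx⟩ := hne
    have hx' : ∀ i, ‖p i - x‖ ≤ r := by
      intro i
      have := Set.mem_iInter.1 hx i
      rw [Metric.mem_closedBall, dist_comm, dist_eq_norm] at this
      exact this
    have hr : 0 ≤ r := (norm_nonneg _).trans (hx' 0)
    obtain ⟨y, hy⟩ := kirs_min r q
    have hcrit := kirs_crit r q y hy
    by_cases hall : ∀ i, kirs_l r q y i = 0
    · refine ⟨y, Set.mem_iInter.2 fun i => ?_⟩
      rw [Metric.mem_closedBall, dist_eq_norm]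
      have h1 : ‖y - q i‖ ^ 2 - r ^ 2 ≤ 0 := by
        have := hall i
        unfold kirs_l at this
        exact max_eq_left_iff.1 this
      exact le_of_sq_le_sq (by linarith) hr
    · push Not at hall
      obtain ⟨i0, hi0⟩ := hall
      exfalso
      set l := kirs_l r q y with hl
      have hl0 : ∀ i, 0 ≤ l i := kirs_l_nonneg r q y
      have hlpos : ∀ i, 0 < l i → r ^ 2 < ‖q i - y‖ ^ 2 := by
        intro i hi
        rw [hl] at hi
        unfold kirs_l at hi
        rw [lt_max_iff] at hi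
        rcases hi with hi | hi
        · exact absurd hi (lt_irrefl _)
        · rw [norm_sub_rev]; linarith
      have hpair : ∀ i j, 0 < l i → 0 < l j →
          inner ℝ (p i - x) (p j - x) < inner ℝ (q i - y) (q j - y) := by
        intro i j hi hj
        have h1 := hlpos i hi
        have h2 := hlpos j hj
        have h3 : ‖p i - x‖ ^ 2 ≤ r ^ 2 := pow_le_pow_left₀ (norm_nonneg _) (hx' i) 2
        have h4 : ‖p j - x‖ ^ 2 ≤ r ^ 2 := pow_le_pow_left₀ (norm_nonneg _) (hx' j) 2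
        have h5 := norm_sub_sq_real (q i - y) (q j - y)
        have h6 := norm_sub_sq_real (p i - x) (p j - x)
        rw [show q i - y - (q j - y) = q i - q j by ring] at h5
        rw [show p i - x - (p j - x) = p i - p j by ring] at h6
        have h7 : ‖q i - q j‖ ^ 2 ≤ ‖p i - p j‖ ^ 2 := by
          apply pow_le_pow_left₀ (norm_nonneg _)
          rw [← dist_eq_norm, ← dist_eq_norm]
          exact hpq i j
        linarith
      have hexpand : ∀ v : Fin (n + 1) → ℂ, ‖∑ i, l i • v i‖ ^ 2 =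
          ∑ i, ∑ j, l i * l j * inner ℝ (v i) (v j) := by
        intro v
        rw [← real_inner_self_eq_norm_sq, sum_inner]
        apply Finset.sum_congr rfl
        intro i _
        rw [inner_sum]
        apply Finset.sum_congr rfl
        intro j _
        rw [real_inner_smul_left, real_inner_smul_right]
        ring
      have h1 : ∑ i, ∑ j, l i * l j * inner ℝ (p i - x) (p j - x) <
          ∑ i, ∑ j, l i * l j * inner ℝ (q i - y) (q j - y) := by
        have hle : ∀ i j, l i * l j * inner ℝ (p i - x) (p j - x) ≤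
            l i * l j * inner ℝ (q i - y) (q j - y) := by
          intro i j
          rcases (hl0 i).eq_or_lt with hi | hi
          · rw [← hi]; simp
          · rcases (hl0 j).eq_or_lt with hj | hj
            · rw [← hj]; simp
            · exact mul_le_mul_of_nonneg_left (hpair i j hi hj).le (by positivity)
        apply Finset.sum_lt_sum
        · intro i _
          exact Finset.sum_le_sum fun j _ => hle i j
        · refine ⟨i0, Finset.mem_univ _, ?_⟩
          apply Finset.sum_lt_sum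
          · intro j _; exact hle i0 j
          · refine ⟨i0, Finset.mem_univ _, ?_⟩
            have hi : 0 < l i0 := lt_of_le_of_ne (hl0 i0) (Ne.symm hi0)
            exact mul_lt_mul_of_pos_left (hpair i0 i0 hi hi) (by positivity)
      rw [← hexpand, ← hexpand, hcrit, norm_zero] at h1
      have h2 : 0 ≤ ‖∑ i, l i • (p i - x)‖ ^ 2 := by positivity
      have h3 : (0 : ℝ) ^ 2 = 0 := by norm_num
      rw [h3] at h1
      linarith

end AX
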