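import Pool.Agent.Helper48.AX.Defs

set_option autoImplicit false

open scoped MeasureTheory ENNReal
open Complex

noncomputable section

namespace AX

theorem mono_K_closed {n : ℕ} (r : ℝ) (c : Fin n → ℂ) : IsClosed (K r c) :=
  isClosed_iInter fun _ => Metric.isClosed_closedBall

theorem mono_K_convex {n : ℕ} (r : ℝ) (c : Fin n → ℂ) : Convex ℝ (K r c) :=
  convex_iInter fun _ => convex_closedBall _ _

/-- nearest point map onto a nonempty closed convex set -/
theorem mono_proj (S : Set ℂ) (hS : IsClosed S) (hc : Convex ℝ S) (hne : S.Nonempty) :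
    ∃ P : ℂ → ℂ, (∀ x, P x ∈ S) ∧ ∀ x, ∀ w ∈ S, inner ℝ (x - P x) (w - P x) ≤ 0 := by
  have h : ∀ x : ℂ, ∃ v ∈ S, ∀ w ∈ S, inner ℝ (x - v) (w - v) ≤ 0 := by
    intro x
    obtain ⟨v, hv, hv2⟩ := exists_norm_eq_iInf_of_complete_convex hne hS.isComplete hc x
    exact ⟨v, hv, (norm_eq_iInf_iff_real_inner_le_zero hc hv).1 hv2⟩
  choose P hP using h
  exact ⟨P, fun x => (hP x).1, fun x => (hP x).2⟩

theorem mono_key (x y u v : ℂ) (h1 : inner ℝ (x - u) (v - u) ≤ 0)
    (h2 : inner ℝ (y - v) (u - v) ≤ 0) : ‖u - v‖ ^ 2 ≤ inner ℝ (x - y) (u - v) := by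
  have e1 : inner ℝ (x - u) (v - u) = -inner ℝ (x - u) (u - v) := by
    rw [← neg_sub u v, inner_neg_right]
  have e2 : inner ℝ (x - y) (u - v) - ‖u - v‖ ^ 2 =
      inner ℝ (x - u) (u - v) - inner ℝ (y - v) (u - v) := by
    rw [← real_inner_self_eq_norm_sq, ← inner_sub_left, ← inner_sub_left]
    congr 1
    ring
  linarith

theorem st_MONO : ST_MONO := by
  intro n r c L hr hKL hL
  rcases (K r c).eq_empty_or_nonempty with hemp | hne
  · rw [hemp]; simp
  obtain ⟨P, hP1, hP2⟩ := mono_proj (K r c) (mono_K_closed r c) (mono_K_convex r c) hne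
  have hLip : LipschitzWith 1 P := by
    apply LipschitzWith.of_dist_le_mul
    intro x y
    rw [dist_eq_norm, dist_eq_norm, NNReal.coe_one, one_mul]
    have h1 := mono_key x y (P x) (P y) (hP2 x _ (hP1 y)) (hP2 y _ (hP1 x))
    have h2 := real_inner_le_norm (x - y) (P x - P y)
    by_cases h0 : ‖P x - P y‖ = 0
    · rw [h0]; exact norm_nonneg _
    · have h3 : 0 < ‖P x - P y‖ := lt_of_le_of_ne (norm_nonneg _) (Ne.symm h0)
      have h4 : ‖P x - P y‖ * ‖P x - P y‖ ≤ ‖x - y‖ * ‖P x - P y‖ := by nlinarith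
      exact le_of_mul_le_mul_right h4 h3
  have hsub : frontier (K r c) ⊆ P '' frontier L := by
    intro x hx
    have hxK : x ∈ K r c := (mono_K_closed r c).frontier_subset hx
    obtain ⟨i, hi⟩ : ∃ i, dist x (c i) = r := by
      by_contra hcon
      push Not at hcon
      have h1 : x ∈ ⋂ i, Metric.ball (c i) r := by
        refine Set.mem_iInter.2 fun i => ?_
        exact lt_of_le_of_ne (Set.mem_iInter.1 hxK i) (hcon i)
      have h2 : IsOpen (⋂ i, Metric.ball (c i) r) := isOpen_iInter_of_finite fun _ =>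
        Metric.isOpen_ball
      have h3 : (⋂ i, Metric.ball (c i) r) ⊆ K r c :=
        Set.iInter_mono fun _ => Metric.ball_subset_closedBall
      have h4 : x ∈ interior (K r c) := interior_maximal h3 h2 h1
      exact hx.2 h4
    have hcone : ∀ y ∈ K r c, inner ℝ (x - c i) (y - x) ≤ 0 := by
      intro y hy
      have h1 : ‖y - c i‖ ^ 2 ≤ r ^ 2 := by
        apply pow_le_pow_left₀ (norm_nonneg _)
        rw [← dist_eq_norm]
        exact Set.mem_iInter.1 hy i
      have h2 : ‖x - c i‖ ^ 2 = r ^ 2 := by rw [← dist_eq_norm, hi]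
      have h3 : y - c i = (x - c i) + (y - x) := by ring
      rw [h3, norm_add_sq_real] at h1
      have h4 : 0 ≤ ‖y - x‖ ^ 2 := by positivity
      linarith
    -- the ray
    set A : Set ℝ := {t : ℝ | 0 ≤ t ∧ x + (t : ℂ) * (x - c i) ∈ L} with hA
    have hcont : Continuous (fun t : ℝ => x + (t : ℂ) * (x - c i)) := by fun_prop
    have hAclosed : IsClosed A := by
      have : A = Set.Ici 0 ∩ (fun t : ℝ => x + (t : ℂ) * (x - c i)) ⁻¹' L := by
        ext t; simp [hA]
      rw [this]
      exact isClosed_Ici.inter (hL.isClosed.preimage hcont)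
    obtain ⟨R, hR⟩ := hL.isBounded.subset_closedBall x
    have hAbdd : BddAbove A := by
      refine ⟨R / r, ?_⟩
      rintro t ⟨ht0, ht⟩
      have h1 := hR ht
      rw [Metric.mem_closedBall, dist_eq_norm, add_sub_cancel_left, norm_mul, ← dist_eq_norm, hi,
        Complex.norm_real, Real.norm_of_nonneg ht0] at h1
      rw [le_div_iff₀ hr]
      exact h1
    have hAne : A.Nonempty := ⟨0, le_rfl, by simpa using hKL hxK⟩
    set t0 := sSup A with ht0
    have ht0A : t0 ∈ A := hAclosed.csSup_mem hAne hAbdd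
    set z := x + (t0 : ℂ) * (x - c i) with hz
    refine ⟨z, ?_, ?_⟩
    · rw [frontier_eq_closure_inter_closure]
      refine ⟨subset_closure ht0A.2, ?_⟩
      -- z is a limit of points outside L
      have hseq : Filter.Tendsto (fun k : ℕ => x + ((t0 + 1 / ((k : ℝ) + 1) : ℝ) : ℂ) * (x - c i))
          Filter.atTop (nhds z) := by
        have h1 : Filter.Tendsto (fun k : ℕ => t0 + 1 / ((k : ℝ) + 1)) Filter.atTop
            (nhds (t0 + 0)) :=
          tendsto_const_nhds.add tendsto_one_div_add_atTop_nhds_zero_nat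
        rw [add_zero] at h1
        exact (hcont.tendsto t0).comp h1
      refine mem_closure_of_tendsto hseq (Filter.Eventually.of_forall fun k => ?_)
      intro hmem
      have hpos : 0 < 1 / ((k : ℝ) + 1) := by positivity
      have h2 : t0 + 1 / ((k : ℝ) + 1) ∈ A := ⟨by linarith [ht0A.1], hmem⟩
      have h3 := le_csSup hAbdd h2
      linarith
    · have h1 := mono_key z z (P z) x (hP2 z x hxK) (by
        have h2 := hcone (P z) (hP1 z)
        have h3 : z - x = t0 • (x - c i) := by
          rw [hz, Complex.real_smul]; ring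
        rw [h3, real_inner_smul_left]
        exact mul_nonpos_of_nonneg_of_nonpos ht0A.1 h2)
      rw [sub_self, inner_zero_left] at h1
      have h4 : ‖P z - x‖ = 0 := by
        have := norm_nonneg (P z - x)
        nlinarith
      exact sub_eq_zero.1 (norm_eq_zero.1 h4)
  calc μH[1] (frontier (K r c)) ≤ μH[1] (P '' frontier L) := MeasureTheory.measure_mono hsub
    _ ≤ (1 : NNReal) ^ (1 : ℝ) * μH[1] (frontier L) :=
        (hLip.lipschitzOnWith).hausdorffMeasure_image_le (by norm_num)
    _ = μH[1] (frontier L) := by simp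

end AX
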