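import Pool.Agent.Helper48.AX.Defs

set_option autoImplicit false

open scoped MeasureTheory ENNReal
open Complex

noncomputable section

namespace AX

theorem tsup_norm_e (θ : ℝ) : ‖e θ‖ = 1 := by
  unfold e
  exact Complex.norm_exp_ofReal_mul_I θ

theorem tsup_sq (r : ℝ) (v : ℂ) (θ : ℝ) :
    ‖(r : ℂ) * e θ - v‖ ^ 2 = r ^ 2 - 2 * r * (v * (starRingEnd ℂ) (e θ)).re + ‖v‖ ^ 2 := by
  have h1 : ‖(r : ℂ) * e θ‖ ^ 2 = r ^ 2 := by
    rw [norm_mul, tsup_norm_e, mul_one, Complex.norm_real, Real.norm_eq_abs, sq_abs]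
  rw [← Complex.normSq_eq_norm_sq] at h1
  rw [← Complex.normSq_eq_norm_sq, ← Complex.normSq_eq_norm_sq, Complex.normSq_sub, h1]
  have h2 : ((r : ℂ) * e θ * (starRingEnd ℂ) v).re = r * (v * (starRingEnd ℂ) (e θ)).re := by
    simp only [Complex.mul_re, Complex.mul_im, Complex.conj_re, Complex.conj_im,
      Complex.ofReal_re, Complex.ofReal_im]
    ring
  rw [h2]
  ring

theorem st_TSUP : ST_TSUP := by
  intro n r c i θ hr
  unfold T K
  rw [Set.mem_setOf_eq, Set.mem_iInter]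
  apply forall_congr'
  intro j
  unfold Sup
  rw [Metric.mem_closedBall, dist_eq_norm,
    show c i + (r : ℂ) * e θ - c j = (r : ℂ) * e θ - (c j - c i) by ring]
  have h1 := tsup_sq r (c j - c i) θ
  have h2 : ‖(r : ℂ) * e θ - (c j - c i)‖ ≤ r ↔ ‖(r : ℂ) * e θ - (c j - c i)‖ ^ 2 ≤ r ^ 2 :=
    ⟨fun h => pow_le_pow_left₀ (norm_nonneg _) h 2, fun h => le_of_sq_le_sq h hr.le⟩
  rw [h2, h1, dist_comm, dist_eq_norm]
  constructor
  · intro h; linarith
  · intro h; linarith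

end AX
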