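import Pool.Agent.Helper48.AX.Defs

set_option autoImplicit false

open scoped MeasureTheory ENNReal
open Complex

noncomputable section

namespace AX

theorem main_inter {ι : Type} (φ : EuclideanSpace ℝ (Fin 2) ≃ᵢ ℂ)
    (s : ι → EuclideanSpace ℝ (Fin 2)) (r : ℝ) (J : Set ι) :
    φ '' (⋂ i ∈ J, Metric.closedBall (s i) r) = ⋂ i ∈ J, Metric.closedBall (φ (s i)) r := by
  ext z
  obtain ⟨y, rfl⟩ := φ.surjective z
  rw [φ.injective.mem_set_image]
  simp only [Set.mem_iInter, Metric.mem_closedBall, φ.dist_eq]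

theorem st_MAIN (hC : ST_CPX) : ST_MAIN := by
  intro n r p q J hr hpq hJ hx
  set φ : EuclideanSpace ℝ (Fin 2) ≃ᵢ ℂ :=
    Complex.orthonormalBasisOneI.repr.symm.toIsometryEquiv with hφ
  have hall : ∀ s : Fin n → EuclideanSpace ℝ (Fin 2),
      φ '' (⋂ i, Metric.closedBall (s i) r) = ⋂ i, Metric.closedBall (φ (s i)) r := by
    intro s
    have := main_inter φ s r Set.univ
    simpa using this
  have hfr : ∀ s : Fin n → EuclideanSpace ℝ (Fin 2),
      μH[1] (frontier (⋂ i, Metric.closedBall (s i) r)) =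
      μH[1] (frontier (⋂ i, Metric.closedBall (φ (s i)) r)) := by
    intro s
    rw [← hall s]
    have h1 : frontier (φ '' (⋂ i, Metric.closedBall (s i) r)) =
        φ '' frontier (⋂ i, Metric.closedBall (s i) r) :=
      (φ.toHomeomorph.image_frontier _).symm
    rw [h1, φ.hausdorffMeasure_image]
  rw [hfr p, hfr q]
  refine hC n r (fun i => φ (p i)) (fun i => φ (q i)) J hr ?_ ?_ ?_
  · intro i j
    rw [φ.dist_eq, φ.dist_eq]
    exact hpq i j
  · have h1 := main_inter φ q r (J : Set (Fin n))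
    simp only [Finset.mem_coe] at h1
    rw [← h1, hJ, hall q]
  · intro i hi
    obtain ⟨x, hx1, hx2⟩ := hx i hi
    refine ⟨φ x, ?_, ?_⟩
    · rw [φ.dist_eq]; exact hx1
    · intro j hj
      rw [φ.dist_eq]
      exact hx2 j hj

end AX
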